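import Pool.Agent.helper29.NS.SpecC
import Pool.Agent.helper55.NS.DJ

/-!
# Project ns: (MP_b9b054_an), module PE (periodic energy lemma)
-/

namespace NS

open MeasureTheory Filter Topology Set

theorem PE : PE_stmt := by
  intro P Q A B C s0 δ hδ hP hQ hA hB hC hper h1 h2 h0 hAC
  have hpi : 0 < 2 * Real.pi := by positivity
  -- continuity
  have cP := hP.continuous
  have cQ := hQ.continuous
  have cA := hA.continuous
  have cB := hB.continuous
  have cC := hC.continuous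
  have cpy : ∀ F : ℝ × ℝ → ℝ, ContDiff ℝ 1 F → Continuous (py F) := fun F hF =>
    (hF.continuous_fderiv one_ne_zero).clm_apply continuous_const
  have cpx : ∀ F : ℝ × ℝ → ℝ, ContDiff ℝ 1 F → Continuous (px F) := fun F hF =>
    (hF.continuous_fderiv one_ne_zero).clm_apply continuous_const
  -- bound of the derivatives
  have hcomp : IsCompact (Icc (0 : ℝ) (2 * Real.pi) ×ˢ Icc (s0 - 1) s0) :=
    isCompact_Icc.prod isCompact_Icc
  obtain ⟨MA, hMA⟩ := hcomp.exists_bound_of_continuousOn (cpy A hA).continuousOn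
  obtain ⟨MB, hMB⟩ := hcomp.exists_bound_of_continuousOn (cpy B hB).continuousOn
  obtain ⟨MC, hMC⟩ := hcomp.exists_bound_of_continuousOn (cpy C hC).continuousOn
  set M : ℝ := max 0 (max MA (max MB MC)) with hM
  have hM0 : 0 ≤ M := le_max_left _ _
  have hMA' : MA ≤ M := (le_max_left _ _).trans (le_max_right _ _)
  have hMB' : MB ≤ M := ((le_max_left _ _).trans (le_max_right _ _)).trans (le_max_right _ _)
  have hMC' : MC ≤ M := ((le_max_right _ _).trans (le_max_right _ _)).trans (le_max_right _ _)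
  -- positivity near the circle
  obtain ⟨c0, hc0, ε1, hε1, hpos⟩ : ∃ c0 : ℝ, 0 < c0 ∧ ∃ ε1 : ℝ, 0 < ε1 ∧
      ∀ θ ∈ Icc (0 : ℝ) (2 * Real.pi), ∀ s, |s - s0| < ε1 → A (θ, s) ≤ -c0 ∧ c0 ≤ C (θ, s) := by
    have hm : Continuous fun z : ℝ × ℝ => min (C z) (-A z) := cC.min cA.neg
    have hm' : ContinuousOn (fun θ : ℝ => min (C (θ, s0)) (-A (θ, s0))) (Icc (0 : ℝ) (2 * Real.pi)) :=
      (hm.comp (continuous_id.prodMk continuous_const)).continuousOn
    obtain ⟨θ0, hθ0, hmin⟩ := isCompact_Icc.exists_isMinOn (nonempty_Icc.mpr hpi.le) hm'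
    have hp0 : 0 < min (C (θ0, s0)) (-A (θ0, s0)) := by
      apply lt_min (hAC θ0).2
      have := (hAC θ0).1
      linarith
    set c1 := min (C (θ0, s0)) (-A (θ0, s0)) with hc1
    have hopen : IsOpen {z : ℝ × ℝ | c1 / 2 < min (C z) (-A z)} := isOpen_lt continuous_const hm
    have hsub : Icc (0 : ℝ) (2 * Real.pi) ×ˢ ({s0} : Set ℝ) ⊆
        {z : ℝ × ℝ | c1 / 2 < min (C z) (-A z)} := by
      rintro ⟨θ, s⟩ ⟨hθ, hs⟩
      have hs' : s = s0 := hs
      subst hs'
      have h := hmin hθ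
      have h' : c1 ≤ min (C (θ, s)) (-A (θ, s)) := h
      show c1 / 2 < min (C (θ, s)) (-A (θ, s))
      linarith
    obtain ⟨u, v, -, hv, hu', hv', huv⟩ :=
      generalized_tube_lemma isCompact_Icc isCompact_singleton hopen hsub
    obtain ⟨ε1, hε1, hball⟩ := Metric.isOpen_iff.mp hv s0 (hv' rfl)
    refine ⟨c1 / 2, by linarith, ε1, hε1, ?_⟩
    intro θ hθ s hs
    have hs' : s ∈ v := hball (by rw [Metric.mem_ball, Real.dist_eq]; exact hs)
    have h : c1 / 2 < min (C (θ, s)) (-A (θ, s)) := huv (mk_mem_prod (hu' hθ) hs')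
    have k1 := h.trans_le (min_le_left _ _)
    have k2 := h.trans_le (min_le_right _ _)
    exact ⟨by linarith, k1.le⟩
  set K : ℝ := 2 * M / c0 with hK
  have hKc : K * c0 = 2 * M := by rw [hK]; field_simp
  have hK0 : 0 ≤ K := by positivity
  -- the energy flux
  set J1 : ℝ × ℝ → ℝ := fun z => Real.exp (-(-K * z.2)) * (Q z * (A z * P z + B z * Q z)) with hJ1
  set J2 : ℝ × ℝ → ℝ := fun z => Real.exp (-(-K * z.2)) * ((C z * Q z ^ 2 - A z * P z ^ 2) / 2)
    with hJ2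
  have dJ1 : ContDiff ℝ 1 J1 := by
    rw [hJ1]
    exact (contDiff_const.mul contDiff_snd).neg.exp.mul (hQ.mul ((hA.mul hP).add (hB.mul hQ)))
  have dJ2 : ContDiff ℝ 1 J2 := by
    rw [hJ2]
    exact (contDiff_const.mul contDiff_snd).neg.exp.mul
      (((hC.mul (hQ.pow 2)).sub (hA.mul (hP.pow 2))).div_const 2)
  set H : ℝ × ℝ → ℝ := fun z => px J1 z + py J2 z with hH
  have cH : Continuous H := (cpx J1 dJ1).add (cpy J2 dJ2)
  set ε : ℝ := min (min δ 1) ε1 with hε
  have hε0 : 0 < ε := lt_min (lt_min hδ one_pos) hε1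
  have hεδ : ε ≤ δ := (min_le_left _ _).trans (min_le_left _ _)
  have hε_1 : ε ≤ 1 := (min_le_left _ _).trans (min_le_right _ _)
  have hεε : ε ≤ ε1 := min_le_right _ _
  -- nonnegativity of `H`
  have hHpos : ∀ θ ∈ Icc (0 : ℝ) (2 * Real.pi), ∀ s, s0 - ε < s → s < s0 → 0 ≤ H (θ, s) := by
    intro θ hθ s hs1 hs2
    have hd := DJ P Q A B C (-K) θ s hP hQ hA hB hC (h1 θ s (by linarith) hs2)
      (h2 θ s (by linarith) hs2)
    have hHe : H (θ, s) = -(Real.exp (-(-K * s)) * (py C (θ, s) * Q (θ, s) ^ 2 / 2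
        + py B (θ, s) * P (θ, s) * Q (θ, s) + py A (θ, s) * P (θ, s) ^ 2 / 2
        + -K / 2 * (C (θ, s) * Q (θ, s) ^ 2 - A (θ, s) * P (θ, s) ^ 2))) := hd
    rw [hHe]
    have hmem : ((θ, s) : ℝ × ℝ) ∈ Icc (0 : ℝ) (2 * Real.pi) ×ˢ Icc (s0 - 1) s0 :=
      ⟨hθ, by constructor <;> simp only <;> linarith⟩
    have bA := (hMA _ hmem).trans hMA'
    have bB := (hMB _ hmem).trans hMB'
    have bC := (hMC _ hmem).trans hMC'
    rw [Real.norm_eq_abs, abs_le] at bA bB bC
    obtain ⟨pA, pC⟩ := hpos θ hθ s (by rw [abs_lt]; constructor <;> linarith)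
    set p := P (θ, s)
    set q := Q (θ, s)
    set a' := py A (θ, s)
    set b' := py B (θ, s)
    set c' := py C (θ, s)
    set a := A (θ, s)
    set c := C (θ, s)
    have e1 : c' * q ^ 2 / 2 ≤ M * q ^ 2 / 2 := by nlinarith [sq_nonneg q, bC.2]
    have e2 : a' * p ^ 2 / 2 ≤ M * p ^ 2 / 2 := by nlinarith [sq_nonneg p, bA.2]
    have e3 : b' * p * q ≤ M * (p ^ 2 + q ^ 2) / 2 := by
      have k1 : 0 ≤ (M + b') * (p - q) ^ 2 := mul_nonneg (by linarith [bB.1]) (sq_nonneg _)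
      have k2 : 0 ≤ (M - b') * (p + q) ^ 2 := mul_nonneg (by linarith [bB.2]) (sq_nonneg _)
      nlinarith
    have e4 : K * (c0 * (p ^ 2 + q ^ 2)) ≤ K * (c * q ^ 2 - a * p ^ 2) := by
      refine mul_le_mul_of_nonneg_left ?_ hK0
      nlinarith [sq_nonneg p, sq_nonneg q, mul_nonneg (sub_nonneg.mpr pC) (sq_nonneg q),
        mul_nonneg (by linarith : 0 ≤ -c0 - a) (sq_nonneg p)]
    have e5 : K * (c0 * (p ^ 2 + q ^ 2)) = 2 * M * (p ^ 2 + q ^ 2) := by rw [← hKc]; ring
    have e6 : c' * q ^ 2 / 2 + b' * p * q + a' * p ^ 2 / 2 + -K / 2 * (c * q ^ 2 - a * p ^ 2) ≤ 0 := by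
      nlinarith
    have e7 : 0 < Real.exp (-(-K * s)) := Real.exp_pos _
    nlinarith
  have hHpos' : ∀ θ ∈ Icc (0 : ℝ) (2 * Real.pi), ∀ s, s0 - ε < s → s ≤ s0 → 0 ≤ H (θ, s) := by
    intro θ hθ s hs1 hs2
    rcases hs2.lt_or_eq with hs2 | hs2
    · exact hHpos θ hθ s hs1 hs2
    · subst hs2
      have ht : Tendsto (fun r : ℝ => H (θ, r)) (𝓝[<] s) (𝓝 (H (θ, s))) :=
        ((cH.comp (continuous_const.prodMk continuous_id)).tendsto s).mono_left nhdsWithin_le_nhds
      refine ge_of_tendsto ht ?_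
      filter_upwards [Ioo_mem_nhdsLT hs1] with r hr
      exact hHpos θ hθ r hr.1 hr.2
  -- the conclusion on one period
  have main : ∀ s, s0 - ε < s → s < s0 → ∀ θ ∈ Icc (0 : ℝ) (2 * Real.pi),
      P (θ, s) = 0 ∧ Q (θ, s) = 0 := by
    intro s hs1 hs2
    have hdiv := integral2_divergence_prod_of_hasFDerivAt_off_countable J1 J2 (fderiv ℝ J1)
      (fderiv ℝ J2) 0 s (2 * Real.pi) s0 ∅ countable_empty dJ1.continuous.continuousOn
      dJ2.continuous.continuousOn
      (fun x _ => (dJ1.differentiable one_ne_zero x).hasFDerivAt)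
      (fun x _ => (dJ2.differentiable one_ne_zero x).hasFDerivAt)
      (by
        have : IsCompact (uIcc (0 : ℝ) (2 * Real.pi) ×ˢ uIcc s s0) := isCompact_uIcc.prod isCompact_uIcc
        exact cH.continuousOn.integrableOn_compact this)
    have hl : 0 ≤ ∫ x in (0 : ℝ)..(2 * Real.pi), ∫ y in s..s0,
        (fderiv ℝ J1 (x, y) (1, 0) + fderiv ℝ J2 (x, y) (0, 1)) := by
      refine intervalIntegral.integral_nonneg hpi.le fun x hx => ?_
      refine intervalIntegral.integral_nonneg hs2.le fun y hy => ?_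
      exact hHpos' x hx y (by linarith [hy.1]) hy.2
    have hz2 : ∫ x in (0 : ℝ)..(2 * Real.pi), J2 (x, s0) = 0 := by
      have : ∀ x : ℝ, J2 (x, s0) = 0 := by
        intro x
        rw [hJ2]
        simp only
        rw [(h0 x).1, (h0 x).2]
        ring
      simp only [this]
      simp
    have hz1 : ∀ y : ℝ, J1 (2 * Real.pi, y) = J1 (0, y) := by
      intro y
      have hp : ∀ F ∈ ({P, Q, A, B, C} : Set (ℝ × ℝ → ℝ)), F (2 * Real.pi, y) = F (0, y) := by
        intro F hF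
        have := hper F hF 0 y
        rwa [zero_add] at this
      have k1 := hp P (by simp)
      have k2 := hp Q (by simp)
      have k3 := hp A (by simp)
      have k4 := hp B (by simp)
      rw [hJ1]
      simp only
      rw [k1, k2, k3, k4]
    simp only [hz1] at hdiv
    rw [hz2] at hdiv
    have hle : ∫ x in (0 : ℝ)..(2 * Real.pi), J2 (x, s) ≤ 0 := by linarith
    have hJ2pos : ∀ θ ∈ Icc (0 : ℝ) (2 * Real.pi),
        Real.exp (-(-K * s)) * (c0 * (P (θ, s) ^ 2 + Q (θ, s) ^ 2) / 2) ≤ J2 (θ, s) := by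
      intro θ hθ
      obtain ⟨pA, pC⟩ := hpos θ hθ s (by rw [abs_lt]; constructor <;> linarith)
      rw [hJ2]
      simp only
      refine mul_le_mul_of_nonneg_left ?_ (Real.exp_pos _).le
      nlinarith [mul_nonneg (sub_nonneg.mpr pC) (sq_nonneg (Q (θ, s))),
        mul_nonneg (by linarith : 0 ≤ -c0 - A (θ, s)) (sq_nonneg (P (θ, s)))]
    have hJ2nn : ∀ θ ∈ Icc (0 : ℝ) (2 * Real.pi), 0 ≤ J2 (θ, s) := fun θ hθ =>
      le_trans (by positivity) (hJ2pos θ hθ)
    intro θ hθ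
    by_contra hne
    have hpq : 0 < P (θ, s) ^ 2 + Q (θ, s) ^ 2 := by
      by_contra hcon
      apply hne
      have k1 := sq_nonneg (P (θ, s))
      have k2 := sq_nonneg (Q (θ, s))
      constructor
      · have : P (θ, s) ^ 2 = 0 := by linarith
        exact pow_eq_zero_iff (two_ne_zero) |>.mp this
      · have : Q (θ, s) ^ 2 = 0 := by linarith
        exact pow_eq_zero_iff (two_ne_zero) |>.mp this
    have hlt : 0 < J2 (θ, s) := lt_of_lt_of_le (by positivity) (hJ2pos θ hθ)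
    have hcs : ContinuousOn (fun x : ℝ => J2 (x, s)) (Icc 0 (2 * Real.pi)) :=
      (dJ2.continuous.comp (continuous_id.prodMk continuous_const)).continuousOn
    have hfin : 0 < ∫ x in (0 : ℝ)..(2 * Real.pi), J2 (x, s) := intervalIntegral.integral_pos hpi
      hcs (fun x hx => hJ2nn x ⟨hx.1.le, hx.2⟩) ⟨θ, hθ, hlt⟩
    linarith
  refine ⟨ε, hε0, fun θ s hs1 hs2 => ?_⟩
  constructor
  · have hp : Function.Periodic (fun x => P (x, s)) (2 * Real.pi) := fun x => hper P (by simp) x s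
    obtain ⟨y, hy, he⟩ := hp.exists_mem_Ico₀ hpi θ
    have he' : P (θ, s) = P (y, s) := he
    rw [he']
    exact (main s hs1 hs2 y ⟨hy.1, hy.2.le⟩).1
  · have hp : Function.Periodic (fun x => Q (x, s)) (2 * Real.pi) := fun x => hper Q (by simp) x s
    obtain ⟨y, hy, he⟩ := hp.exists_mem_Ico₀ hpi θ
    have he' : Q (θ, s) = Q (y, s) := he
    rw [he']
    exact (main s hs1 hs2 y ⟨hy.1, hy.2.le⟩).2

end NS
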