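import Pool.Agent.helper29.NS.SpecE

/-! Module ns:TQB: the vorticity of the difference is constant on a connected boundary. -/

namespace NS

open MeasureTheory Filter Topology Set

theorem TQB_lin (L : ℝ × ℝ × ℝ →L[ℝ] ℝ) (u v : ℝ) :
    L (0, (u, v)) = u * L (0, 1, 0) + v * L (0, 0, 1) := by
  have e : ((0, (u, v)) : ℝ × ℝ × ℝ) = u • ((0, 1, 0) : ℝ × ℝ × ℝ) + v • ((0, 0, 1) : ℝ × ℝ × ℝ) := by
    simp
  rw [e, map_add, map_smul, map_smul, smul_eq_mul, smul_eq_mul]

theorem TQB_loc (hNC : NC_stmt) (hFH : FH_stmt) (Ω : Set (ℝ × ℝ)) (ν : ℝ)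
    (a b m n : ℝ × ℝ × ℝ → ℝ) (c : ℝ × ℝ) (θ δ : ℝ) (f : ℝ → ℝ) (hO : IsOpen Ω) (hν : ν ≠ 0)
    (hDM : DM Ω ν a b m n) (hch : Chart Ω c θ δ f) :
    ∃ V ∈ 𝓝 c, ∀ t, ∀ q ∈ frontier Ω ∩ V, vort a b (t, q) = vort a b (t, c) := by
  obtain ⟨η, hη, ⟨V, hV, hVf⟩, hVc⟩ := hFH Ω c θ δ f hO hch
  have nc := hNC Ω ν a b m n hO hν hDM
  have hvC : ContDiff ℝ 1 (vort a b) := by
    have e1 : ContDiff ℝ 1 (dx b) := by
      unfold dx
      exact ((hDM.cb.of_le (by norm_num : (2 : WithTop ℕ∞) ≤ 3)).fderiv_right (m := 1)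
        (by norm_num)).clm_apply contDiff_const
    have e2 : ContDiff ℝ 1 (dy a) := by
      unfold dy
      exact ((hDM.ca.of_le (by norm_num : (2 : WithTop ℕ∞) ≤ 3)).fderiv_right (m := 1)
        (by norm_num)).clm_apply contDiff_const
    unfold vort
    exact e1.sub e2
  have hder : ∀ t s : ℝ, HasDerivAt (fun s : ℝ => vort a b (t, pt θ c s (f s)))
      ((Real.cos θ - deriv f s * Real.sin θ) * dx (vort a b) (t, pt θ c s (f s))
        + (Real.sin θ + deriv f s * Real.cos θ) * dy (vort a b) (t, pt θ c s (f s))) s := by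
    intro t s
    have hfs : HasDerivAt f (deriv f s) s :=
      (hch.smooth.differentiable (by norm_num) s).hasDerivAt
    have h1 : HasDerivAt (fun s : ℝ => c.1 + s * Real.cos θ - f s * Real.sin θ)
        (Real.cos θ - deriv f s * Real.sin θ) s := by
      have := (((hasDerivAt_id s).mul_const (Real.cos θ)).const_add c.1).sub
        (hfs.mul_const (Real.sin θ))
      exact this.congr_deriv (by ring)
    have h2 : HasDerivAt (fun s : ℝ => c.2 + s * Real.sin θ + f s * Real.cos θ)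
        (Real.sin θ + deriv f s * Real.cos θ) s := by
      have := (((hasDerivAt_id s).mul_const (Real.sin θ)).const_add c.2).add
        (hfs.mul_const (Real.cos θ))
      exact this.congr_deriv (by ring)
    have h3 : HasDerivAt (fun s : ℝ => ((t, pt θ c s (f s)) : ℝ × ℝ × ℝ))
        (0, (Real.cos θ - deriv f s * Real.sin θ, Real.sin θ + deriv f s * Real.cos θ)) s :=
      (hasDerivAt_const s t).prodMk (h1.prodMk h2)
    have h4 : HasFDerivAt (vort a b) (fderiv ℝ (vort a b) (t, pt θ c s (f s)))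
        (t, pt θ c s (f s)) := (hvC.differentiable (by norm_num) _).hasFDerivAt
    have h5 := h4.comp_hasDerivAt s h3
    rw [TQB_lin] at h5
    exact h5
  have hzero : ∀ t s : ℝ, |s| < η →
      HasDerivAt (fun s : ℝ => vort a b (t, pt θ c s (f s))) 0 s := by
    intro t s hs
    have h1 := hder t s
    have h2 := nc t (pt θ c s (f s)) (hVc s hs)
    rw [h2.1, h2.2.1, mul_zero, mul_zero, add_zero] at h1
    exact h1
  refine ⟨V, hV, ?_⟩
  rintro t q ⟨hqf, hqd⟩
  obtain ⟨s, hs, rfl⟩ := hVf q ⟨hqf, hqd⟩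
  have hI : IsOpen (Ioo (-η) η) := isOpen_Ioo
  have key := hI.is_const_of_deriv_eq_zero isPreconnected_Ioo
    (f := fun s : ℝ => vort a b (t, pt θ c s (f s)))
    (fun u hu => (hzero t u (abs_lt.2 hu)).differentiableAt.differentiableWithinAt)
    (fun u hu => (hzero t u (abs_lt.2 hu)).deriv) (abs_lt.1 hs)
    (show (0 : ℝ) ∈ Ioo (-η) η from ⟨by linarith, hη⟩)
  have e0 : pt θ c 0 (f 0) = c := by
    simp [pt, hch.f0]
  simp only [e0] at key
  exact key

theorem TQB (hNC : NC_stmt) (hFH : FH_stmt) : TQB_stmt := by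
  intro Ω ν a b m n hO hν hDM hpre hchart t q hq q' hq'
  have : PreconnectedSpace (frontier Ω) := Subtype.preconnectedSpace hpre
  have hloc : IsLocallyConstant (fun x : frontier Ω => vort a b (t, (x : ℝ × ℝ))) := by
    rw [IsLocallyConstant.iff_eventually_eq]
    intro x
    obtain ⟨θ, δ, f, hch⟩ := hchart x x.2
    obtain ⟨V, hV, h⟩ := TQB_loc hNC hFH Ω ν a b m n x θ δ f hO hν hDM hch
    have h1 : ∀ᶠ y : frontier Ω in 𝓝 x, (y : ℝ × ℝ) ∈ V :=
      (continuous_subtype_val.tendsto x).eventually hV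
    filter_upwards [h1] with y hy
    exact h t y ⟨y.2, hy⟩
  exact hloc.apply_eq_of_preconnectedSpace ⟨q, hq⟩ ⟨q', hq'⟩

end NS
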