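import Pool.Agent.helper42.NS.Spec

set_option autoImplicit false

/-! Row nos:KIL (helper79). -/

namespace Pool.Agent.helper42.NS

open Finset

/-- the linear form of a `0/1` vector -/
def KIL_phi (K : Type) [Field K] {t : ℕ} (b : Fin t → Bool) : (Fin t → K) →ₗ[K] K where
  toFun u := dotb b u
  map_add' u v := by
    unfold dotb
    rw [← Finset.sum_add_distrib]
    refine Finset.sum_congr rfl fun j _ => ?_
    by_cases h : b j = true
    · simp [h]
    · simp [h]
  map_smul' c u := by
    unfold dotb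
    rw [RingHom.id_apply, smul_eq_mul, Finset.mul_sum]
    refine Finset.sum_congr rfl fun j _ => ?_
    by_cases h : b j = true
    · simp [h]
    · simp [h]

theorem KIL_phi_apply (K : Type) [Field K] {t : ℕ} (b : Fin t → Bool) (u : Fin t → K) :
    KIL_phi K b u = dotb b u := rfl

theorem KIL_ncard {α : Type*} [Fintype α] (p : α → Prop) [DecidablePred p] :
    Set.ncard {x | p x} = (univ.filter p).card := by
  rw [← Set.ncard_coe_finset]
  congr 1
  ext x
  simp

theorem KIL_arith (q T D : ℕ) (hD : 1 ≤ D) (h1 : q ≤ T) (h2 : q * (2 * D) ≤ T) :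
    (q * (2 * D - 1) + (T - q) * (D - 1)) * 2 ≤ (2 * D - 1) * T := by
  obtain ⟨D', rfl⟩ : ∃ D', D = D' + 1 := ⟨D - 1, by omega⟩
  obtain ⟨r, rfl⟩ : ∃ r, T = q + r := ⟨T - q, by omega⟩
  have e1 : 2 * (D' + 1) - 1 = 2 * D' + 1 := by omega
  have e2 : D' + 1 - 1 = D' := by omega
  have e3 : q + r - q = r := by omega
  rw [e1, e2, e3]
  nlinarith

theorem KIL (h : ODL_stmt) : KIL_stmt := by
  classical
  intro K _ t E k
  induction k generalizing E with
  | zero =>
    rcases Set.eq_empty_or_nonempty {B : Fin 0 → Fin t → Bool | ∃ u ∈ E, u ≠ 0 ∧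
      ∀ i, dotb (B i) u = 0} with h0 | ⟨B, u, hu, hu0, -⟩
    · rw [h0, Set.ncard_empty, zero_mul]
      exact Nat.zero_le _
    · have h1 : Set.ncard {B : Fin 0 → Fin t → Bool | ∃ u ∈ E, u ≠ 0 ∧
          ∀ i, dotb (B i) u = 0} ≤ 1 := by
        rw [KIL_ncard]
        refine (Finset.card_le_univ _).trans ?_
        simp
      have h2 : 0 < Module.finrank K E := by
        rw [Module.finrank_pos_iff]
        exact ⟨⟨u, hu⟩, 0, fun hh => hu0 (congrArg Subtype.val hh)⟩
      have h3 : 2 ^ 1 ≤ 2 ^ Module.finrank K E := Nat.pow_le_pow_right (by norm_num) h2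
      rw [pow_zero, mul_one, Nat.mul_zero, pow_zero, mul_one]
      omega
  | succ k ih =>
    -- the subspaces
    let Eb : (Fin t → Bool) → Submodule K (Fin t → K) := fun b => E ⊓ LinearMap.ker (KIL_phi K b)
    have hEb : ∀ b u, u ∈ Eb b ↔ u ∈ E ∧ dotb b u = 0 := by
      intro b u
      rw [Submodule.mem_inf, LinearMap.mem_ker, KIL_phi_apply]
    by_cases hE : E = ⊥
    · have h0 : {B : Fin (k + 1) → Fin t → Bool | ∃ u ∈ E, u ≠ 0 ∧
          ∀ i, dotb (B i) u = 0} = ∅ := by
        rw [Set.eq_empty_iff_forall_notMem]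
        rintro B ⟨u, hu, hu0, -⟩
        rw [hE, Submodule.mem_bot] at hu
        exact hu0 hu
      rw [h0, Set.ncard_empty, zero_mul]
      exact Nat.zero_le _
    have hd : 1 ≤ Module.finrank K E := by
      rw [Nat.one_le_iff_ne_zero]
      intro h0
      exact hE (Submodule.finrank_eq_zero.1 h0)
    obtain ⟨d, hd'⟩ : ∃ d, Module.finrank K E = d + 1 := ⟨Module.finrank K E - 1, by omega⟩
    -- the sum over the first vector
    have hsum : Set.ncard {B : Fin (k + 1) → Fin t → Bool | ∃ u ∈ E, u ≠ 0 ∧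
        ∀ i, dotb (B i) u = 0} = ∑ b : Fin t → Bool, Set.ncard {B : Fin k → Fin t → Bool |
          ∃ u ∈ Eb b, u ≠ 0 ∧ ∀ i, dotb (B i) u = 0} := by
      rw [KIL_ncard, Finset.card_filter]
      rw [← (Fin.consEquiv (fun _ : Fin (k + 1) => Fin t → Bool)).sum_comp, Fintype.sum_prod_type]
      refine Finset.sum_congr rfl fun b _ => ?_
      rw [KIL_ncard, Finset.card_filter]
      refine Finset.sum_congr rfl fun B _ => ?_
      congr 1
      apply propext
      constructor
      · rintro ⟨u, hu, hu0, hi⟩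
        refine ⟨u, (hEb b u).2 ⟨hu, hi 0⟩, hu0, fun i => hi i.succ⟩
      · rintro ⟨u, hu, hu0, hi⟩
        rw [hEb] at hu
        refine ⟨u, hu.1, hu0, fun i => ?_⟩
        refine Fin.cases ?_ (fun j => ?_) i
        · exact hu.2
        · exact hi j
    -- the vectors orthogonal to `E`
    let Q : Finset (Fin t → Bool) := univ.filter fun b => ∀ u ∈ E, dotb b u = 0
    have hQ1 : Q.card * 2 ^ (d + 1) ≤ 2 ^ t := by
      have h1 := h K t E
      rw [KIL_ncard, hd'] at h1
      exact h1
    have hcard : (univ : Finset (Fin t → Bool)).card = 2 ^ t := by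
      rw [Finset.card_univ, Fintype.card_pi_const, Fintype.card_bool]
    have hQ2 : Q.card ≤ 2 ^ t := by
      rw [← hcard]
      exact Finset.card_le_univ _
    have hb : ∀ b : Fin t → Bool, Set.ncard {B : Fin k → Fin t → Bool |
          ∃ u ∈ Eb b, u ≠ 0 ∧ ∀ i, dotb (B i) u = 0} * 2 ^ k ≤
        (if b ∈ Q then 2 ^ (d + 1) - 1 else 2 ^ d - 1) * 2 ^ (t * k) := by
      intro b
      refine (ih (Eb b)).trans (Nat.mul_le_mul_right _ ?_)
      by_cases hbQ : b ∈ Q
      · rw [if_pos hbQ]
        have h1 : Module.finrank K (Eb b) ≤ d + 1 := by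
          rw [← hd']
          exact Submodule.finrank_mono inf_le_left
        exact Nat.sub_le_sub_right (Nat.pow_le_pow_right (by norm_num) h1) 1
      · rw [if_neg hbQ]
        have h1 : Module.finrank K (Eb b) < Module.finrank K E := by
          apply Submodule.finrank_lt_finrank_of_lt
          refine lt_of_le_of_ne inf_le_left ?_
          intro hh
          apply hbQ
          rw [Finset.mem_filter]
          refine ⟨Finset.mem_univ _, fun u hu => ?_⟩
          have h2 : u ∈ Eb b := by rw [hh]; exact hu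
          exact ((hEb b u).1 h2).2
        rw [hd'] at h1
        exact Nat.sub_le_sub_right (Nat.pow_le_pow_right (by norm_num) (by omega)) 1
    have hfin : (∑ b : Fin t → Bool, (if b ∈ Q then 2 ^ (d + 1) - 1 else 2 ^ d - 1)) * 2 ≤
        (2 ^ (d + 1) - 1) * 2 ^ t := by
      rw [Finset.sum_ite, Finset.sum_const, Finset.sum_const, smul_eq_mul, smul_eq_mul]
      have h1 : (univ.filter fun b => b ∈ Q) = Q := by
        ext b
        simp
      have h2 : (univ.filter fun b => b ∉ Q).card = 2 ^ t - Q.card := by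
        have h3 : (univ.filter fun b => b ∉ Q) = univ \ Q := by
          ext b
          simp
        rw [h3, Finset.card_sdiff_of_subset (Finset.subset_univ _), hcard]
      rw [h1, h2]
      have h4 := KIL_arith Q.card (2 ^ t) (2 ^ d) Nat.one_le_two_pow hQ2 (by
        rw [← pow_succ']
        exact hQ1)
      rw [← pow_succ'] at h4
      exact h4
    calc Set.ncard {B : Fin (k + 1) → Fin t → Bool | ∃ u ∈ E, u ≠ 0 ∧
        ∀ i, dotb (B i) u = 0} * 2 ^ (k + 1)
        = (∑ b : Fin t → Bool, Set.ncard {B : Fin k → Fin t → Bool |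
          ∃ u ∈ Eb b, u ≠ 0 ∧ ∀ i, dotb (B i) u = 0} * 2 ^ k) * 2 := by
          rw [hsum, pow_succ, ← mul_assoc, Finset.sum_mul]
      _ ≤ (∑ b : Fin t → Bool, (if b ∈ Q then 2 ^ (d + 1) - 1 else 2 ^ d - 1) * 2 ^ (t * k)) * 2 :=
          Nat.mul_le_mul_right _ (Finset.sum_le_sum fun b _ => hb b)
      _ = ((∑ b : Fin t → Bool, (if b ∈ Q then 2 ^ (d + 1) - 1 else 2 ^ d - 1)) * 2) *
            2 ^ (t * k) := by
          rw [← Finset.sum_mul]
          ring
      _ ≤ ((2 ^ (d + 1) - 1) * 2 ^ t) * 2 ^ (t * k) := Nat.mul_le_mul_right _ hfin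
      _ = (2 ^ Module.finrank K E - 1) * 2 ^ (t * (k + 1)) := by
          rw [hd', mul_assoc, ← pow_add]
          congr 2
          ring

end Pool.Agent.helper42.NS
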